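import Pool.Agent.E8helper61.EF.Stm

/-!
# Project EF, piece LOWER: the construction
-/

set_option autoImplicit false

open Finset

namespace Pool.Agent.E8helper40.EF

open Pool.Agent.E8helper61.EF

theorem card_lt {n r : ℕ} (h : r ≤ n) : (univ.filter (fun x : Fin n => x.val < r)).card = r := by
  have h1 : (univ.filter (fun x : Fin n => x.val < r)).card = (range r).card := by
    refine Finset.card_bij (fun x _ => x.val) ?_ ?_ ?_
    · intro a ha
      exact mem_range.2 (mem_filter.1 ha).2
    · intro a _ b _ hab
      exact Fin.ext hab
    · intro b hb
      have hb' := mem_range.1 hb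
      exact ⟨⟨b, by omega⟩, mem_filter.2 ⟨mem_univ _, hb'⟩, rfl⟩
  rw [h1, card_range]

theorem card_ge {n r : ℕ} (h : r ≤ n) :
    (univ.filter (fun x : Fin n => r ≤ x.val)).card = n - r := by
  have h1 := Finset.card_filter_add_card_filter_not (s := (univ : Finset (Fin n)))
    (fun x : Fin n => x.val < r)
  rw [card_lt h, card_univ, Fintype.card_fin] at h1
  have h2 : univ.filter (fun x : Fin n => ¬ x.val < r) = univ.filter (fun x : Fin n => r ≤ x.val) := by
    ext x
    simp
  rw [h2] at h1
  omega

/-- LOWER -/
theorem lower : LowerStatement := by
  intro n k d i hk hd hki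
  set r := d - k * i with hr
  have hrn : r ≤ n := by omega
  set L := univ.filter (fun x : Fin n => x.val < r) with hL
  set H := univ.filter (fun x : Fin n => r ≤ x.val) with hH
  refine ⟨univ.filter (fun B : Finset (Fin n) => (far r B).card ≤ i), ?_, ?_⟩
  · intro f hf
    have h1 : univ.biUnion f ⊆ L ∪ univ.biUnion (fun j => far r (f j)) := by
      intro x hx
      obtain ⟨j, -, hj⟩ := mem_biUnion.1 hx
      rw [mem_union]
      by_cases hxr : x.val < r
      · left
        exact mem_filter.2 ⟨mem_univ _, hxr⟩
      · right
        exact mem_biUnion.2 ⟨j, mem_univ _, mem_filter.2 ⟨hj, by omega⟩⟩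
    have h2 : (univ.biUnion (fun j => far r (f j))).card ≤ k * i := by
      refine (card_biUnion_le).trans ?_
      calc ∑ j : Fin k, (far r (f j)).card ≤ ∑ _j : Fin k, i :=
            Finset.sum_le_sum fun j _ => (mem_filter.1 (hf j)).2
        _ = k * i := by simp
    have h3 := (card_le_card h1).trans (card_union_le _ _)
    rw [card_lt hrn] at h3
    omega
  · have h1 : (univ.filter (fun B : Finset (Fin n) => (far r B).card ≤ i)).card =
        (L.powerset ×ˢ ((range (i + 1)).biUnion fun j => H.powersetCard j)).card := by
      refine Finset.card_bij' (fun B _ => (near r B, far r B)) (fun p _ => p.1 ∪ p.2) ?_ ?_ ?_ ?_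
      · intro B hB
        rw [mem_product]
        refine ⟨mem_powerset.2 ?_, mem_biUnion.2 ⟨(far r B).card, ?_, mem_powersetCard.2 ⟨?_, rfl⟩⟩⟩
        · intro x hx
          exact mem_filter.2 ⟨mem_univ _, (mem_filter.1 hx).2⟩
        · exact mem_range.2 (Nat.lt_succ_of_le (mem_filter.1 hB).2)
        · intro x hx
          exact mem_filter.2 ⟨mem_univ _, (mem_filter.1 hx).2⟩
      · rintro ⟨X, Y⟩ hp
        rw [mem_product] at hp
        obtain ⟨hX, hY⟩ := hp
        obtain ⟨j, hj, hYj⟩ := mem_biUnion.1 hY
        have hYc : Y.card = j := (mem_powersetCard.1 hYj).2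
        have hXL := mem_powerset.1 hX
        refine mem_filter.2 ⟨mem_univ _, ?_⟩
        have : far r (X ∪ Y) ⊆ Y := by
          intro x hx
          obtain ⟨h4, h5⟩ := mem_filter.1 hx
          rcases mem_union.1 h4 with h6 | h6
          · have := (mem_filter.1 (hXL h6)).2
            omega
          · exact h6
        have h7 := card_le_card this
        have h8 := mem_range.1 hj
        show (far r (X ∪ Y)).card ≤ i
        omega
      · intro B hB
        show near r B ∪ far r B = B
        ext x
        unfold near far
        simp only [mem_union, mem_filter]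
        constructor
        · rintro (h4 | h4)
          · exact h4.1
          · exact h4.1
        · intro h4
          by_cases h5 : x.val < r
          · exact Or.inl ⟨h4, h5⟩
          · exact Or.inr ⟨h4, by omega⟩
      · rintro ⟨X, Y⟩ hp
        rw [mem_product] at hp
        obtain ⟨hX, hY⟩ := hp
        obtain ⟨j, hj, hYj⟩ := mem_biUnion.1 hY
        obtain ⟨hYH, hYc⟩ := mem_powersetCard.1 hYj
        have hXL := mem_powerset.1 hX
        have hX' : ∀ x ∈ X, x.val < r := fun x hx => (mem_filter.1 (hXL hx)).2
        have hY' : ∀ x ∈ Y, r ≤ x.val := fun x hx => (mem_filter.1 (hYH hx)).2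
        show (near r (X ∪ Y), far r (X ∪ Y)) = (X, Y)
        refine Prod.ext ?_ ?_
        · show near r (X ∪ Y) = X
          ext x
          unfold near
          simp only [mem_union, mem_filter]
          constructor
          · rintro ⟨h4 | h4, h5⟩
            · exact h4
            · have := hY' x h4
              omega
          · intro h4
            exact ⟨Or.inl h4, hX' x h4⟩
        · show far r (X ∪ Y) = Y
          ext x
          unfold far
          simp only [mem_union, mem_filter]
          constructor
          · rintro ⟨h4 | h4, h5⟩
            · have := hX' x h4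
              omega
            · exact h4
          · intro h4
            exact ⟨Or.inr h4, hY' x h4⟩
    rw [h1, card_product, card_powerset, card_lt hrn, card_biUnion]
    · congr 1
      refine Finset.sum_congr rfl fun j _ => ?_
      rw [card_powersetCard, card_ge hrn]
      congr 1
      omega
    · intro a _ b _ hab
      show Disjoint (powersetCard a H) (powersetCard b H)
      rw [Finset.disjoint_left]
      intro Y hYa hYb
      exact hab ((mem_powersetCard.1 hYa).2.symm.trans (mem_powersetCard.1 hYb).2)

end Pool.Agent.E8helper40.EF
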